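import Pool.Agent.Q83.FF.All

/-!
# The finite free entropy power inequality for discriminants: the case of equality

Question 2 of the problem: if `p` and `q` are monic of degree `d ≥ 2` with `d` distinct real roots
and `Dis (p ⊞ q)^(1/N) = Dis p^(1/N) + Dis q^(1/N)`, `N = d(d-1)/2`, then `p` and `q` are generalized
Hermite polynomials `exp(- μ D - σ²/(2(d-1)) D²) x^d`.

Polynomials are given by their root vectors. Outline of the proof:

* the sorted roots of `p ⊞ q` depend on the roots of `p` and `q` by a map which is Lipschitz with
  constant one for the quadratic form `|a|² + |b|² + (2/d) (∑ a) (∑ b)`; the reason is that the sums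
  of the `k` largest roots are subadditive (counting of zeros on lines);
* along the heat flow `exp(- s/(2(d-1)) D²)` this gives the Stam inequality and the monotonicity of
  the deficit `log Dis r_s - l log Dis p_s - (1-l) log Dis q_s`, which tends to `0`; equality makes it
  vanish for all times;
* the deficit is then expanded to second order at the Hermite polynomial for `s → ∞`; the first
  coefficients in which the centred polynomials differ from a Hermite polynomial would have to satisfy
  `(l^(m/2) x + (1-l)^(m/2) y)² = l x² + (1-l) y²` with `m ≥ 3`, so `x = y = 0`.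
-/

set_option autoImplicit false

namespace Pool.Agent.Results.MP_a687e6_pr.EqualityCase

open Polynomial Pool.Agent.Q83.FF

/-- Let `p = ∏ (X - a i)` and `q = ∏ (X - b i)` be monic polynomials of degree `d ≥ 2` with `d`
distinct real roots each, and let `c` be the vector of the roots of their finite free convolution
`p ⊞_d q`. If `Dis (p ⊞_d q)^(1/N) = Dis p^(1/N) + Dis q^(1/N)` with `N = d (d-1)/2`, then each of `p`
and `q` is a generalized Hermite polynomial. -/
theorem result (d : ℕ) (hd : 2 ≤ d) (a b c : Fin d → ℝ)
    (ha : Function.Injective a) (hb : Function.Injective b)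
    (hc : ∏ i, (X - C (c i)) = conv d (∏ i, (X - C (a i))) (∏ i, (X - C (b i))))
    (heq : dis c ^ ((1 : ℝ) / (d.choose 2 : ℕ)) = dis a ^ ((1 : ℝ) / (d.choose 2 : ℕ))
      + dis b ^ ((1 : ℝ) / (d.choose 2 : ℕ))) :
    (∃ mu v : ℝ, 0 ≤ v ∧ ∏ i, (X - C (a i)) = herm d mu v) ∧
    (∃ mu v : ℝ, 0 ≤ v ∧ ∏ i, (X - C (b i)) = herm d mu v) :=
  eq_case deficit p0 hermr ganti rflow flow sums vareq alg rcoef kpos heatalg uniq trans' heatscale
    herm2 d hd a b c ha hb hc heq

end Pool.Agent.Results.MP_a687e6_pr.EqualityCase
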